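import Pool.Agent.H56.KAF.Stmts

/-!
# Theorem A from the inequality with explicit errors
-/

set_option autoImplicit false

namespace Pool.KAF

open Finset Real
open Pool.Agent.H49.Ent Pool.Agent.H32.Dense Pool.STK

namespace THA

variable {Ω S T U : Type} [Fintype Ω]

/-- Regrouping of a triple. -/
lemma law_assoc (p : Ω → ℝ) (A : Ω → S) (B : Ω → T) (Z : Ω → U) (ω : Ω) :
    law p (fun v => ((A v, B v), Z v)) ((A ω, B ω), Z ω) =
      law p (fun v => (A v, (B v, Z v))) (A ω, (B ω, Z ω)) := by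
  classical
  unfold law
  refine Finset.sum_congr rfl fun v _ => ?_
  by_cases h : A v = A ω ∧ B v = B ω ∧ Z v = Z ω
  · obtain ⟨h1, h2, h3⟩ := h
    simp [h1, h2, h3]
  · rw [if_neg, if_neg]
    · intro h'
      simp only [Prod.mk.injEq] at h'
      exact h ⟨h'.1, h'.2.1, h'.2.2⟩
    · intro h'
      simp only [Prod.mk.injEq] at h'
      exact h ⟨h'.1.1, h'.1.2, h'.2⟩

/-- Chain rule for the pointwise information. -/
lemma ci_chain {p : Ω → ℝ} (hp : ∀ ω, 0 ≤ p ω) (A : Ω → S) (B : Ω → T) (Z : Ω → U) {ω : Ω}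
    (hω : 0 < p ω) :
    ci p (fun v => (A v, B v)) Z ω = ci p A (fun v => (B v, Z v)) ω + ci p B Z ω := by
  have h1 : 0 < law p (fun v => (A v, (B v, Z v))) (A ω, (B ω, Z ω)) :=
    law_pos hp (fun v => (A v, (B v, Z v))) hω
  have h2 : 0 < law p (fun v => (B v, Z v)) (B ω, Z ω) := law_pos hp (fun v => (B v, Z v)) hω
  have h3 : 0 < law p Z (Z ω) := law_pos hp Z hω
  unfold ci cp
  rw [law_assoc, Real.log_div h1.ne' h3.ne', Real.log_div h1.ne' h2.ne',
    Real.log_div h2.ne' h3.ne']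
  ring

/-- Markov's inequality for the lower tail. -/
lemma markov {p : Ω → ℝ} (hp : ∀ ω, 0 ≤ p ω) (f : Ω → ℝ) (a s : ℝ) :
    Pr p {ω | f ω < a - s} * s ≤ Ex p (fun ω => max 0 (a - f ω)) := by
  classical
  unfold Pr law Ex
  rw [Finset.sum_mul]
  refine Finset.sum_le_sum fun ω _ => ?_
  by_cases h : f ω < a - s
  · have h0 : (ω ∈ {ω | f ω < a - s}) = True := by simpa using h
    rw [if_pos h0]
    refine mul_le_mul_of_nonneg_left ?_ (hp ω)
    exact le_trans (by linarith) (le_max_right _ _)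
  · have h0 : ¬ ((ω ∈ {ω | f ω < a - s}) = True) := by simpa using h
    rw [if_neg h0, zero_mul]
    exact mul_nonneg (hp ω) (le_max_left _ _)

end THA

theorem tha_thm (hT : TYPStmt) (hTAL : TALStmt) (hV : VALStmt) : THAStmt := by
  intro m μ σ η hG hσ hη
  obtain ⟨θ₀, hθ₀, J₁, hJ₁⟩ := hG
  set δ : ℝ := min η θ₀ with hδ
  have hδ0 : 0 < δ := lt_min hη hθ₀
  have hδη : δ ≤ η := min_le_left _ _
  have hδθ : δ ≤ θ₀ := min_le_right _ _
  set ε : ℝ := δ / 100 with hε
  have hε0 : 0 < ε := by positivity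
  set θ₁ : ℝ := δ / 10 with hθ₁
  have hθ₁0 : 0 < θ₁ := by positivity
  obtain ⟨C, hC, hC'⟩ := hT m ε hε0
  set θ : ℝ := θ₁ * η / (10 * (|μ| + 1)) with hθ
  have hμ0 : 0 ≤ |μ| := abs_nonneg μ
  have hθ0 : 0 < θ := by positivity
  -- the logarithm
  have hlog : ∀ᶠ J : ℕ in Filter.atTop, Real.log J ≤ θ₀ / 4 * J := by
    have h := Real.isLittleO_log_id_atTop.bound (show 0 < θ₀ / 4 by positivity)
    have h2 : ∀ᶠ x : ℝ in Filter.atTop, Real.log x ≤ θ₀ / 4 * x := by
      filter_upwards [h, Filter.eventually_gt_atTop 1] with x hx hx1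
      rw [Real.norm_eq_abs, Real.norm_eq_abs, id, abs_of_pos (Real.log_pos hx1),
        abs_of_pos (by linarith)] at hx
      exact hx
    exact tendsto_natCast_atTop_atTop.eventually h2
  have hlin : ∀ M : ℝ, ∀ a : ℝ, 0 < a → ∀ᶠ J : ℕ in Filter.atTop, M ≤ a * J := by
    intro M a ha
    have h2 : ∀ᶠ x : ℝ in Filter.atTop, M ≤ a * x := by
      filter_upwards [Filter.eventually_ge_atTop (M / a)] with x hx
      rw [div_le_iff₀ ha] at hx
      linarith
    exact tendsto_natCast_atTop_atTop.eventually h2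
  set M : ℝ := 1 + C + |μ| / θ₁ + |μ| * C / ε with hM
  have hev : ∀ᶠ J : ℕ in Filter.atTop, J₁ ≤ J ∧ 16 ≤ J ∧ Real.log J ≤ θ₀ / 4 * J ∧
      C ≤ θ₀ / 4 * J ∧ M ≤ η / 10 * J := by
    filter_upwards [Filter.eventually_ge_atTop J₁, Filter.eventually_ge_atTop 16, hlog,
      hlin C (θ₀ / 4) (by positivity), hlin M (η / 10) (by positivity)] with J h1 h2 h3 h4 h5
    exact ⟨h1, h2, h3, h4, h5⟩
  obtain ⟨J₀, hJ₀⟩ := Filter.eventually_atTop.mp hev
  refine ⟨θ, hθ0, J₀, ?_⟩
  intro J hJ Ω ζ _ p u d t Z hF hH w hw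
  obtain ⟨hJa, hJb, hJc, hJd, hJe⟩ := hJ₀ J hJ
  have hp := hF.law.nonneg
  have hJpos : (0 : ℝ) < J := by
    have : 0 < J := by omega
    exact_mod_cast this
  have hmain := hC' μ σ θ₀ θ₁ J hJb hσ (hJ₁ J hJa) hθ₁0 (by
    have e1 : θ₁ * J ≤ θ₀ / 10 * J := mul_le_mul_of_nonneg_right (by rw [hθ₁]; linarith) hJpos.le
    have e2 : 2 * ε * J ≤ θ₀ / 50 * J := mul_le_mul_of_nonneg_right (by rw [hε]; linarith) hJpos.le
    nlinarith) Ω ζ p u d t Z hF w hw
  -- the difference of the entropies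
  obtain ⟨hV1, hV2, hV3⟩ := hV m J Ω p u d t hF
  obtain ⟨f, hf⟩ := hV3 w J hw
  have hent : CH p (fun ω => (X J u d t J ω, t ω)) Z - CH p (fun ω => (X J u d t w ω, t ω)) Z =
      CH p (X J u d t J) (fun ω => (X J u d t w ω, (t ω, Z ω))) := by
    rw [CH_chain hp, CH_chain hp]
    have h1 : CH p (X J u d t J) (fun ω => (t ω, Z ω)) =
        CH p (fun ω => (X J u d t J ω, X J u d t w ω)) (fun ω => (t ω, Z ω)) := by
      refine CH_congr hp ?_ ?_ (fun _ _ _ _ h => h) (fun _ _ _ _ h => h)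
      · intro ω ω' _ _ h
        simp only [Prod.mk.injEq] at h
        refine Prod.ext h.1 ?_
        change X J u d t w ω = X J u d t w ω'
        rw [hf, hf, h.1]
      · intro ω ω' _ _ h
        simp only [Prod.mk.injEq] at h
        exact h.1.1
    rw [h1, CH_chain hp]
    ring
  -- the time
  set L : Ω → ℝ := ci p t (fun v => (li u d v, Z v)) with hL
  have hcardT : ∀ ω, t ω ∈ Finset.range (2 ^ J) := fun ω => Finset.mem_range.mpr (hF.t_lt ω)
  have hlogcard : Real.log ((Finset.range (2 ^ J)).card : ℕ) = J * Real.log 2 := by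
    rw [Finset.card_range]
    push_cast
    rw [Real.log_pow]
  obtain ⟨-, hE1, -, hE2⟩ := hTAL Ω ℕ _ p t (fun v => (li u d v, Z v)) (Finset.range (2 ^ J))
    hF.law hcardT
  obtain ⟨-, -, -, hE3⟩ := hTAL Ω ℕ _ p t Z (Finset.range (2 ^ J)) hF.law hcardT
  rw [hlogcard] at hE2 hE3
  have hsumL : Ex p (fun ω => max 0 (J * Real.log 2 - L ω)) ≤ θ * J + 1 := by
    have e1 : Ex p (fun ω => max 0 (J * Real.log 2 - L ω)) =
        Ex p (fun ω => (J * Real.log 2 - L ω) + max 0 (L ω - J * Real.log 2)) := by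
      unfold Ex
      refine Finset.sum_congr rfl fun ω _ => ?_
      congr 1
      dsimp only
      rcases le_total (J * Real.log 2 - L ω) 0 with h | h
      · rw [max_eq_left h, max_eq_right (by linarith)]
        ring
      · rw [max_eq_right h, max_eq_left (by linarith)]
        ring
    rw [e1, Ex_add, Ex_sub, Ex_const hF.law.sum_one]
    rw [hE1] at hH
    linarith
  have hmarkov : Pr p {ω | L ω < J * Real.log 2 - θ₁ * J} * (θ₁ * J) ≤ θ * J + 1 :=
    le_trans (THA.markov hp L (J * Real.log 2) (θ₁ * J)) hsumL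
  -- the bracket
  have hbr : Ex p (fun ω => max 0 (m * ((J : ℝ) - w) * Real.log 2 +
        ci p (fun v => (X J u d t w v, t v)) Z ω - J * Real.log 2 - ci p (Fl d J) Z ω)) ≤
      Ex p (fun ω => max 0 (m * ((J : ℝ) - w) * Real.log 2 +
        ci p (X J u d t w) (fun v => (t v, Z v)) ω - ci p (Fl d J) Z ω)) + 1 := by
    refine le_trans ?_ (add_le_add_right hE3 _)
    rw [← Ex_add]
    refine Ex_mono hp fun ω hω => ?_
    rw [THA.ci_chain hp (X J u d t w) t Z hω]
    refine max_le (add_nonneg (le_max_left _ _) (le_max_left _ _)) ?_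
    have e1 := le_max_right 0 (m * ((J : ℝ) - w) * Real.log 2 +
        ci p (X J u d t w) (fun v => (t v, Z v)) ω - ci p (Fl d J) Z ω)
    have e2 := le_max_right 0 (ci p t Z ω - J * Real.log 2)
    linarith
  -- the exponential
  have hexp : (J : ℝ) * Real.exp (-(ε * J)) ≤ 1 / ε := by
    have e1 : ε * J ≤ Real.exp (ε * J) := by
      have := Real.add_one_le_exp (ε * J)
      linarith
    rw [Real.exp_neg, ← div_eq_mul_inv, div_le_div_iff₀ (Real.exp_pos _) hε0]
    linarith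
  have hPr : |μ| * J * Pr p {ω | L ω < J * Real.log 2 - θ₁ * J} ≤
      |μ| * θ / θ₁ * J + |μ| / θ₁ := by
    have e1 : J * Pr p {ω | L ω < J * Real.log 2 - θ₁ * J} ≤ (θ * J + 1) / θ₁ := by
      rw [le_div_iff₀ hθ₁0]
      linarith
    calc |μ| * J * Pr p {ω | L ω < J * Real.log 2 - θ₁ * J}
        = |μ| * (J * Pr p {ω | L ω < J * Real.log 2 - θ₁ * J}) := by ring
      _ ≤ |μ| * ((θ * J + 1) / θ₁) := mul_le_mul_of_nonneg_left e1 hμ0
      _ = |μ| * θ / θ₁ * J + |μ| / θ₁ := by ring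
  have hθμ : |μ| * θ / θ₁ ≤ η / 10 := by
    have e1 : |μ| * θ / θ₁ = |μ| / (|μ| + 1) * (η / 10) := by
      rw [hθ]
      field_simp
    rw [e1]
    have e2 : |μ| / (|μ| + 1) ≤ 1 := by
      rw [div_le_one (by positivity)]
      linarith
    calc |μ| / (|μ| + 1) * (η / 10) ≤ 1 * (η / 10) :=
          mul_le_mul_of_nonneg_right e2 (by positivity)
      _ = η / 10 := one_mul _
  have hexp2 : |μ| * J * (C * Real.exp (-(ε * J))) ≤ |μ| * C / ε := by
    calc |μ| * J * (C * Real.exp (-(ε * J))) = |μ| * C * (J * Real.exp (-(ε * J))) := by ring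
      _ ≤ |μ| * C * (1 / ε) := mul_le_mul_of_nonneg_left hexp (by positivity)
      _ = |μ| * C / ε := by ring
  rw [hent] at hmain
  have hsplit : |μ| * J * (Pr p {ω | L ω < J * Real.log 2 - θ₁ * J} +
      C * Real.exp (-(ε * J))) = |μ| * J * Pr p {ω | L ω < J * Real.log 2 - θ₁ * J} +
      |μ| * J * (C * Real.exp (-(ε * J))) := by ring
  rw [hsplit] at hmain
  have e1 : θ₁ * J ≤ η / 10 * J := mul_le_mul_of_nonneg_right (by rw [hθ₁]; linarith) hJpos.le
  have e2 : ε * J ≤ η / 100 * J := mul_le_mul_of_nonneg_right (by rw [hε]; linarith) hJpos.le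
  have e3 : |μ| * θ / θ₁ * J ≤ η / 10 * J := mul_le_mul_of_nonneg_right hθμ hJpos.le
  have e4 : 0 < η * J := mul_pos hη hJpos
  nlinarith

end Pool.KAF
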